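import Pool.Agent.Lib.MP_131fce_co.K.Count
import Pool.Agent.Lib.MP_131fce_co.U.MidOrder

set_option autoImplicit false

namespace Pool.Agent.Results.MP_131fce_co.ManyOrders

open Pool.Agent.ICycK

/-- For every `k ≥ 11`, every triangle-free graph on `n` vertices has at most `(n / k) ^ k` vertex
sets of size `k` that induce a cycle, if `n ≤ 2 k - 3` or if `n = m k + r` with `m ≥ 1`,
`0 ≤ r ≤ k` and `7 (m + 1) ^ 2 k ^ 2 ≤ 5 (k - 1) r (k - r)`. -/
theorem result :
    ∀ k : ℕ, 11 ≤ k → ∀ (V : Type) [Fintype V] (G : SimpleGraph V), G.CliqueFree 3 →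
      (Fintype.card V + 3 ≤ 2 * k ∨ ∃ m r : ℕ, 1 ≤ m ∧ r ≤ k ∧ Fintype.card V = m * k + r ∧
        7 * (m + 1) ^ 2 * k ^ 2 ≤ 5 * (k - 1) * (r * (k - r))) →
      (({S : Finset V | S.card = k ∧
          Nonempty (G.induce (S : Set V) ≃g SimpleGraph.cycleGraph k)}.ncard : ℝ)
        ≤ ((Fintype.card V : ℝ) / (k : ℝ)) ^ k) := by
  intro k hk V _ G hG hn
  classical
  have : NeZero k := ⟨by omega⟩
  have hk5 : 5 ≤ k := le_trans (by norm_num) hk
  have hkpos : (0 : ℝ) < (k : ℝ) := by
    have : 0 < k := by omega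
    exact_mod_cast this
  have tf : ∀ a b c : V, G.Adj a b → G.Adj b c → ¬ G.Adj a c := by
    intro a b c hab hbc hac
    exact hG {a, b, c} (SimpleGraph.is3Clique_triple_iff.mpr ⟨hab, hac, hbc⟩)
  have hcount := ncard_le (V := V) (G := G) (k := k) hk5
  by_cases hne : (Cyc G k).Nonempty
  · have hNN : NN G k ≤ 2 * (k : ℝ) * ((Fintype.card V : ℝ) / (k : ℝ)) ^ k := by
      rcases hn with hn | ⟨m, r, hm, hr, hn, hc⟩
      · exact Pool.Agent.ICycU.NN_le_small (V := V) (G := G) (k := k) hk tf hne hn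
      · exact Pool.Agent.ICycU.NN_le_mid (V := V) (G := G) (k := k) hk tf hne hm hr hn hc
    have h1 := hcount.trans hNN
    exact le_of_mul_le_mul_left h1 (by positivity)
  · have hN : NN G k = 0 := by
      rw [NN, Finset.not_nonempty_iff_eq_empty.mp hne]
      simp
    rw [hN] at hcount
    have h5 : (({S : Finset V | S.card = k ∧
          Nonempty (G.induce (S : Set V) ≃g SimpleGraph.cycleGraph k)}.ncard : ℝ)) ≤ 0 := by
      by_contra hcon
      push Not at hcon
      have := mul_pos (mul_pos (by norm_num : (0:ℝ) < 2) hkpos) hcon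
      linarith
    exact le_trans h5 (by positivity)

end Pool.Agent.Results.MP_131fce_co.ManyOrders
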