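import Pool.Agent.Lib.MP_131fce_co.Flag.Bound5
import Pool.Agent.Lib.MP_131fce_co.Flag.Bound6
import Pool.Agent.Lib.MP_131fce_co.Flag.Bound7
import Pool.Agent.Lib.MP_131fce_co.Flag.Bound8
import Pool.Agent.Lib.MP_131fce_co.FlagH.K9.Bound
import Pool.Agent.Lib.MP_131fce_co.FlagH.K10.Bound
import Pool.Agent.Lib.MP_131fce_co.Flag.AdjOK

set_option autoImplicit false

namespace Pool.Agent.Results.MP_131fce_co.SmallCycles

open Pool.Agent.ICyc.Flag

/-- For `5 ≤ k ≤ 10`, every triangle-free graph on `n` vertices has at most `(n / k) ^ k`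
vertex sets of size `k` that induce a cycle. -/
theorem result :
    ∀ k : ℕ, 5 ≤ k → k ≤ 10 → ∀ (V : Type) [Fintype V] (G : SimpleGraph V), G.CliqueFree 3 →
      (({S : Finset V | S.card = k ∧
          Nonempty (G.induce (S : Set V) ≃g SimpleGraph.cycleGraph k)}.ncard : ℝ)
        ≤ ((Fintype.card V : ℝ) / (k : ℝ)) ^ k) := by
  intro k h5 h10 V _ G hG
  have hA := adjOK_of_cliqueFree G hG
  obtain rfl | rfl | rfl | rfl | rfl | rfl :
      k = 5 ∨ k = 6 ∨ k = 7 ∨ k = 8 ∨ k = 9 ∨ k = 10 := by omega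
  · exact bound5 V G hA
  · exact bound6 V G hA
  · exact bound7 V G hA
  · exact bound8 V G hA
  · exact Pool.Agent.ICyc.FlagH.K9.bound9 V G hA
  · exact Pool.Agent.ICyc.FlagH.K10.bound10 V G hA

end Pool.Agent.Results.MP_131fce_co.SmallCycles
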