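import Pool.Agent.Lib.MP_131fce_co.K.Count
import Pool.Agent.Lib.MP_131fce_co.U.Final

set_option autoImplicit false

namespace Pool.Agent.Results.MP_131fce_co.UniversalBound

open Pool.Agent.ICycK

/-- For every `k ≥ 11`, every triangle-free graph on `n` vertices has at most
`(13 / 10) * (n / k) ^ k` vertex sets of size `k` that induce a cycle. -/
theorem result :
    ∀ k : ℕ, 11 ≤ k → ∀ (V : Type) [Fintype V] (G : SimpleGraph V), G.CliqueFree 3 →
      (({S : Finset V | S.card = k ∧
          Nonempty (G.induce (S : Set V) ≃g SimpleGraph.cycleGraph k)}.ncard : ℝ)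
        ≤ (13 / 10) * ((Fintype.card V : ℝ) / (k : ℝ)) ^ k) := by
  intro k hk V _ G hG
  classical
  have : NeZero k := ⟨by omega⟩
  have hk5 : 5 ≤ k := le_trans (by norm_num) hk
  have hkpos : (0 : ℝ) < (k : ℝ) := by
    have : 0 < k := by omega
    exact_mod_cast this
  have tf : ∀ a b c : V, G.Adj a b → G.Adj b c → ¬ G.Adj a c := by
    intro a b c hab hbc hac
    exact hG {a, b, c} (SimpleGraph.is3Clique_triple_iff.mpr ⟨hab, hac, hbc⟩)
  have hcount := ncard_le (V := V) (G := G) (k := k) hk5
  by_cases hne : (Cyc G k).Nonempty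
  · have hNN := Pool.Agent.ICycU.NN_le (V := V) (G := G) (k := k) hk tf hne
    have hV : Nonempty V := by
      obtain ⟨x, _⟩ := hne
      exact ⟨x 0⟩
    have hn : (0 : ℝ) < (Fintype.card V : ℝ) := by
      exact_mod_cast Fintype.card_pos
    have hkap : (0 : ℝ) < kap V k := div_pos hkpos hn
    have h1 : (2 * (k : ℝ)) * (({S : Finset V | S.card = k ∧
          Nonempty (G.induce (S : Set V) ≃g SimpleGraph.cycleGraph k)}.ncard : ℝ)) * kap V k ^ k ≤
        13 / 10 * (2 * (k : ℝ)) :=
      le_trans (mul_le_mul_of_nonneg_right hcount (pow_nonneg hkap.le k)) hNN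
    have h2 : (({S : Finset V | S.card = k ∧
          Nonempty (G.induce (S : Set V) ≃g SimpleGraph.cycleGraph k)}.ncard : ℝ)) * kap V k ^ k
          ≤ 13 / 10 := by
      have h3 : (2 * (k : ℝ)) * ((({S : Finset V | S.card = k ∧
          Nonempty (G.induce (S : Set V) ≃g SimpleGraph.cycleGraph k)}.ncard : ℝ)) * kap V k ^ k)
          ≤ (2 * (k : ℝ)) * (13 / 10) := by
        rw [← mul_assoc, mul_comm (2 * (k : ℝ)) (13 / 10 : ℝ)]
        exact h1
      exact le_of_mul_le_mul_left h3 (by positivity)
    have h4 : (13 / 10 : ℝ) * ((Fintype.card V : ℝ) / (k : ℝ)) ^ k = (13 / 10) / kap V k ^ k := by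
      rw [div_eq_mul_one_div (13 / 10 : ℝ) (kap V k ^ k), ← one_div_pow]
      congr 2
      rw [kap]
      field_simp
    rw [h4, le_div_iff₀ (pow_pos hkap k)]
    exact h2
  · have hN : NN G k = 0 := by
      rw [NN, Finset.not_nonempty_iff_eq_empty.mp hne]
      simp
    rw [hN] at hcount
    have h5 : (({S : Finset V | S.card = k ∧
          Nonempty (G.induce (S : Set V) ≃g SimpleGraph.cycleGraph k)}.ncard : ℝ)) ≤ 0 := by
      by_contra hcon
      push Not at hcon
      have := mul_pos (mul_pos (by norm_num : (0:ℝ) < 2) hkpos) hcon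
      linarith
    exact le_trans h5 (by positivity)

end Pool.Agent.Results.MP_131fce_co.UniversalBound
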